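import Pool.Agent.H44C.Final

/-!
# Testing the inequality (a) on condensers

For every probability measure `μ` on the pairs of points of the compactification of the tree of degree `3`:

1. if the inequality (a) holds with the constant `K` then `pairEnergy μ h ≤ K * cap` for all potentials `h` of condensers;
2. if `pairEnergy μ h ≤ τ * cap / (1 + log⁺ log⁺ (1 / cap)) ^ 2` for all potentials `h` of condensers then (a) holds with the constant `1 + 200000 * τ`.

See `Pool.Agent.H44C.TreeDefs` for the definitions.
-/

set_option autoImplicit false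

open MeasureTheory

namespace Pool.Agent.Results.MP_caa522_an.CondenserTest

open Pool.Agent.H44C

theorem result : ∀ (μ : Measure (Tbar × Tbar)) [IsProbabilityMeasure μ],
    (∀ K : ℝ, 0 ≤ K → (∀ F ∈ FF, pairEnergy μ F ≤ K * energy F F) →
      ∀ G ∈ FF, IsCondenser G → pairEnergy μ (clipW G) ≤ K * cap G) ∧
    (∀ τ : ℝ, 0 ≤ τ →
      (∀ G ∈ FF, IsCondenser G →
        pairEnergy μ (clipW G) ≤ τ * cap G / (1 + Real.log (max 1 (Real.log (1 / cap G)))) ^ 2) →
      ∀ F ∈ FF, pairEnergy μ F ≤ (1 + 200000 * τ) * energy F F) := by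
  intro μ _
  exact ⟨fun K hK h G hG _ => easy_direction hK h hG, fun τ hτ h F hF => loglog hτ h hF⟩

end Pool.Agent.Results.MP_caa522_an.CondenserTest
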