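import Pool.Agent.H44C.Final

/-!
# Testing the inequality (a) on condensers, functions with `n` edges in the support of the gradient

If `pairEnergy μ h ≤ τ * cap` for all potentials `h` of condensers then for all `n ≥ 1` and all functions `F` whose gradient is not `0` on at most `n` edges
`pairEnergy μ F ≤ 1300 * (1 + log (1 + log n)) ^ 2 * τ * energy F F`.

See `Pool.Agent.H44C.TreeDefs` for the definitions.
-/

set_option autoImplicit false

open MeasureTheory

namespace Pool.Agent.Results.MP_caa522_an.CondenserTestEdges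

open Pool.Agent.H44C

theorem result : ∀ (μ : Measure (Tbar × Tbar)) [IsProbabilityMeasure μ] (τ : ℝ), 0 ≤ τ →
    (∀ G ∈ FF, IsCondenser G → pairEnergy μ (clipW G) ≤ τ * cap G) →
    ∀ n : ℕ, 1 ≤ n → ∀ F ∈ FF, {w | F w ≠ F (par w)}.ncard ≤ n →
      pairEnergy μ F ≤ 1300 * (1 + Real.log (1 + Real.log n)) ^ 2 * τ * energy F F := by
  intro μ _ τ hτ h n hn F hF hFn
  exact edges hτ h hF hn hFn

end Pool.Agent.Results.MP_caa522_an.CondenserTestEdges
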